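import Mathlib
import Pool.Agent.Helper23.Dir.Lift
import Pool.Agent.Helper23.Dir.GroupA
import Pool.Agent.Helper23.Dir.SpectralB

set_option autoImplicit false

open MeasureTheory Bundle Pool.Agent.Helper23.Dir
open scoped Manifold ContDiff ENNReal

namespace Pool.Agent.Results.MP_65d49d_gt.HighMult

/-- **Dirichlet eigenvalues of surfaces with boundary can have arbitrarily high multiplicity.** -/
theorem result (k N : ℕ) (hk : 1 ≤ k) :
    ∃ (M : Type) (_ : TopologicalSpace M) (_ : ChartedSpace (EuclideanHalfSpace 2) M)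
      (_ : IsManifold (𝓡∂ 2) ∞ M) (_ : MeasurableSpace M) (_ : BorelSpace M)
      (_ : CompactSpace M) (_ : T2Space M) (_ : ConnectedSpace M)
      (g : RMetric M) (μ : Measure M),
      ((𝓡∂ 2).boundary M).Nonempty ∧ IsArea g μ ∧ (N : ℕ∞) < mult g μ k := by
  classical
  obtain ⟨G, _, _, a, b, hgen, ha, hrep⟩ := exists_group (N + k + 1)
  have : Fintype G := Fintype.ofFinite G
  let _ : TopologicalSpace G := ⊥
  have : DiscreteTopology G := ⟨rfl⟩
  have hcard : N + k + 1 + 1 ≤ Nat.card G := card_gt (N + k + 1) a ha hrep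
  refine ⟨Surf a b, inferInstance, inferInstance, inferInstance, inferInstance, inferInstance,
    inferInstance, inferInstance, connectedSpace_surf hgen, gm, area a b, ?_, isArea, ?_⟩
  · -- a boundary point
    refine ⟨sec a b true 1 ⟨10, ?_⟩, ?_⟩
    · refine ⟨?_, ?_, ?_⟩ <;> norm_num
    · rw [← ModelWithCorners.compl_interior, Set.mem_compl_iff, mem_interior_iff]
      intro h
      have := h.1
      rw [pr_sec] at this
      norm_num at this
  · have key : ∀ j, 1 ≤ j → j ≤ N + k + 1 → nu (gm : RMetric (Surf a b)) (area a b) j =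
        nu (gm : RMetric (Surf a b)) (area a b) 1 := by
      intro j hj1 hj2
      exact mult_theorem (testFun (Surf a b)) (energy gm (area a b)) (mass (area a b))
        (Eform a b) (Bform a b) (rep a b) Eform_rep Bform_rep
        (fun u v => Efun_comm _ _) (fun u v => Bfun_comm _ _) energy_eq_form mass_eq_form
        Bform_pos Eform_nonneg (N + k + 1) hrep ((Real.pi / 10) ^ 2) (96 / 1000) quot_lt
        H1_surf (H2_surf (N + k + 1) hcard) j hj1 hj2
    have hsub : ((Finset.Icc 1 (N + k + 1) : Finset ℕ) : Set ℕ) ⊆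
        {j : ℕ | nu (gm : RMetric (Surf a b)) (area a b) j =
          nu (gm : RMetric (Surf a b)) (area a b) k} := by
      intro j hj
      rw [Finset.mem_coe, Finset.mem_Icc] at hj
      have h1 := key j hj.1 hj.2
      have h2 := key k hk (by omega)
      exact h1.trans h2.symm
    calc (N : ℕ∞) < ((N + k + 1 : ℕ) : ℕ∞) := by exact_mod_cast (by omega : N < N + k + 1)
      _ = ((Finset.Icc 1 (N + k + 1) : Finset ℕ) : Set ℕ).encard := by
          rw [Set.encard_coe_eq_coe_finsetCard]
          simp
      _ ≤ _ := Set.encard_le_encard hsub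

end Pool.Agent.Results.MP_65d49d_gt.HighMult
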